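import Mathlib

/-!
# The operator-theoretic core

`S`, `T` are commuting isometries of a Hilbert space with `S* T = T S*`. We study the operator
polynomial `P = 8 + 4 S + 4 S² + T (1 + S²)`.
-/

open ContinuousLinearMap

namespace Pool.Agent.Bidisc

variable {H : Type*} [NormedAddCommGroup H] [InnerProductSpace ℂ H] [CompleteSpace H]

/-- Doubly commuting isometries. -/
structure DC (S T : H →L[ℂ] H) : Prop where
  comm : ∀ x, T (S x) = S (T x)
  isoS : ∀ x, adjoint S (S x) = x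
  isoT : ∀ x, adjoint T (T x) = x
  dc : ∀ x, adjoint S (T x) = T (adjoint S x)

/-- `P = 8 + 4 S + 4 S² + T + T S²`. -/
noncomputable def opP (S T : H →L[ℂ] H) : H →L[ℂ] H :=
  (8 : ℂ) • 1 + (4 : ℂ) • S + (4 : ℂ) • (S * S) + T + S * S * T

/-- `Q = 1 + S² + 4 T + 4 S T + 8 S² T`. -/
noncomputable def opQ (S T : H →L[ℂ] H) : H →L[ℂ] H :=
  1 + S * S + (4 : ℂ) • T + (4 : ℂ) • (S * T) + (8 : ℂ) • (S * S * T)

omit [CompleteSpace H] in
lemma opP_apply (S T : H →L[ℂ] H) (x : H) :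
    opP S T x = (8 : ℂ) • x + (4 : ℂ) • S x + (4 : ℂ) • S (S x) + T x + S (S (T x)) := rfl

omit [CompleteSpace H] in
lemma opQ_apply (S T : H →L[ℂ] H) (x : H) :
    opQ S T x = x + S (S x) + (4 : ℂ) • T x + (4 : ℂ) • S (T x) + (8 : ℂ) • S (S (T x)) := rfl

variable {S T : H →L[ℂ] H}

namespace DC

variable (h : DC S T)
include h

lemma normS (x : H) : ‖S x‖ = ‖x‖ := by
  have : ‖S x‖ ^ 2 = ‖x‖ ^ 2 := by
    have h1 : inner ℂ (S x) (S x) = inner ℂ x x := by
      rw [← adjoint_inner_left, h.isoS]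
    rw [inner_self_eq_norm_sq_to_K, inner_self_eq_norm_sq_to_K] at h1
    exact_mod_cast h1
  exact (sq_eq_sq₀ (norm_nonneg _) (norm_nonneg _)).1 this

lemma normT (x : H) : ‖T x‖ = ‖x‖ := by
  have : ‖T x‖ ^ 2 = ‖x‖ ^ 2 := by
    have h1 : inner ℂ (T x) (T x) = inner ℂ x x := by
      rw [← adjoint_inner_left, h.isoT]
    rw [inner_self_eq_norm_sq_to_K, inner_self_eq_norm_sq_to_K] at h1
    exact_mod_cast h1
  exact (sq_eq_sq₀ (norm_nonneg _) (norm_nonneg _)).1 this

lemma opNormS : ‖S‖ ≤ 1 :=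
  S.opNorm_le_bound zero_le_one (fun x => by rw [h.normS, one_mul])

lemma opNormT : ‖T‖ ≤ 1 :=
  T.opNorm_le_bound zero_le_one (fun x => by rw [h.normT, one_mul])

lemma innerSS (x y : H) : inner ℂ (S x) (S y) = inner ℂ x y := by
  rw [← adjoint_inner_left, h.isoS]

lemma innerTT (x y : H) : inner ℂ (T x) (T y) = inner ℂ x y := by
  rw [← adjoint_inner_left, h.isoT]

lemma commTS : T * S = S * T := by
  ext x; exact h.comm x

/-- `1 + c T` is invertible for `|c| < 1`. -/
lemma isUnit_one_add {c : ℂ} (hc : ‖c‖ < 1) : IsUnit (1 + c • T) := by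
  have h1 : ‖-(c • T)‖ < 1 := by
    rw [norm_neg, norm_smul]
    have := h.opNormT
    nlinarith [norm_nonneg c, norm_nonneg T]
  have h2 := isUnit_one_sub_of_norm_lt_one h1
  rwa [sub_neg_eq_add] at h2

lemma opP_mul : opP S T * ((2 : ℂ) • 1 - S) = (16 : ℂ) • (1 - (1 / 16 : ℂ) •
    ((4 : ℂ) • (S * S * S) - (4 : ℂ) • (S * S) -
      (2 : ℂ) • T + S * T - (2 : ℂ) • (S * S * T) + S * S * S * T)) := by
  ext x
  change opP S T ((2 : ℂ) • x - S x) = (16 : ℂ) • (x - (1 / 16 : ℂ) •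
    ((4 : ℂ) • (S (S (S x))) - (4 : ℂ) • (S (S x)) -
      (2 : ℂ) • T x + S (T x) - (2 : ℂ) • (S (S (T x))) + S (S (S (T x)))))
  rw [opP_apply]
  simp only [map_sub, map_smul, h.comm]
  module

lemma commP_two_sub : Commute (opP S T) ((2 : ℂ) • 1 - S) := by
  ext x
  change opP S T ((2 : ℂ) • x - S x) = (2 : ℂ) • (opP S T x) - S (opP S T x)
  rw [opP_apply, opP_apply]
  simp only [map_sub, map_smul, map_add, h.comm]
  module

lemma isUnit_opP : IsUnit (opP S T) := by
  have h0 : IsUnit (opP S T * ((2 : ℂ) • 1 - S)) := by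
    rw [h.opP_mul]
    have h1 : ‖(1 / 16 : ℂ) • ((4 : ℂ) • (S * S * S) - (4 : ℂ) • (S * S) -
      (2 : ℂ) • T + S * T - (2 : ℂ) • (S * S * T) + S * S * S * T)‖ < 1 := by
      rw [norm_smul]
      have e16 : ‖(1 / 16 : ℂ)‖ = 1 / 16 := by simp
      have e4 : ‖(4 : ℂ)‖ = 4 := by simp
      have e2 : ‖(2 : ℂ)‖ = 2 := by simp
      rw [e16]
      have hS := h.opNormS
      have hT := h.opNormT
      have a1 : ‖S * S‖ ≤ 1 := (norm_mul_le _ _).trans (by nlinarith [norm_nonneg S])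
      have a2 : ‖S * S * S‖ ≤ 1 := (norm_mul_le _ _).trans
        (by nlinarith [norm_nonneg S, norm_nonneg (S * S)])
      have a3 : ‖S * T‖ ≤ 1 := (norm_mul_le _ _).trans
        (by nlinarith [norm_nonneg S, norm_nonneg T])
      have a4 : ‖S * S * T‖ ≤ 1 := (norm_mul_le _ _).trans
        (by nlinarith [norm_nonneg (S * S), norm_nonneg T])
      have a5 : ‖S * S * S * T‖ ≤ 1 := (norm_mul_le _ _).trans
        (by nlinarith [norm_nonneg (S * S * S), norm_nonneg T])
      have b1 : ‖(4 : ℂ) • (S * S * S)‖ ≤ 4 := by rw [norm_smul, e4]; linarith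
      have b2 : ‖(4 : ℂ) • (S * S)‖ ≤ 4 := by rw [norm_smul, e4]; linarith
      have b3 : ‖(2 : ℂ) • T‖ ≤ 2 := by rw [norm_smul, e2]; linarith
      have b4 : ‖(2 : ℂ) • (S * S * T)‖ ≤ 2 := by rw [norm_smul, e2]; linarith
      have c1 := norm_sub_le ((4 : ℂ) • (S * S * S)) ((4 : ℂ) • (S * S))
      have c2 := norm_sub_le ((4 : ℂ) • (S * S * S) - (4 : ℂ) • (S * S)) ((2 : ℂ) • T)
      have c3 := norm_add_le ((4 : ℂ) • (S * S * S) - (4 : ℂ) • (S * S) - (2 : ℂ) • T) (S * T)
      have c4 := norm_sub_le ((4 : ℂ) • (S * S * S) - (4 : ℂ) • (S * S) - (2 : ℂ) • T + S * T)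
        ((2 : ℂ) • (S * S * T))
      have c5 := norm_add_le ((4 : ℂ) • (S * S * S) - (4 : ℂ) • (S * S) - (2 : ℂ) • T + S * T -
        (2 : ℂ) • (S * S * T)) (S * S * S * T)
      linarith
    have h2 := isUnit_one_sub_of_norm_lt_one h1
    exact IsUnit.smul (Units.mk0 (16 : ℂ) (by norm_num)) h2
  exact (h.commP_two_sub.isUnit_mul_iff.1 h0).1

omit [CompleteSpace H] h in
/-- The inverse of a unit. -/
lemma exists_inv {A : H →L[ℂ] H} (hA : IsUnit A) :
    ∃ R : H →L[ℂ] H, (∀ x, A (R x) = x) ∧ (∀ x, R (A x) = x) := by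
  obtain ⟨u, rfl⟩ := hA
  refine ⟨((u⁻¹ : (H →L[ℂ] H)ˣ) : H →L[ℂ] H), fun x => ?_, fun x => ?_⟩
  · exact congrArg (fun B : H →L[ℂ] H => B x) u.mul_inv
  · exact congrArg (fun B : H →L[ℂ] H => B x) u.inv_mul

/-- `P` commutes with `S` and with `T`. -/
lemma opP_S (x : H) : opP S T (S x) = S (opP S T x) := by
  rw [opP_apply, opP_apply]
  simp only [map_add, map_smul, h.comm]

lemma opP_T (x : H) : opP S T (T x) = T (opP S T x) := by
  rw [opP_apply, opP_apply]
  simp only [map_add, map_smul, h.comm]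

lemma opQ_S (x : H) : opQ S T (S x) = S (opQ S T x) := by
  rw [opQ_apply, opQ_apply]
  simp only [map_add, map_smul, h.comm]

/-- The membership condition of the space `N₂`. -/
lemma mem2_T {x : H} (hx : adjoint S (adjoint S (opP S T x)) = 0) :
    adjoint S (adjoint S (opP S T (T x))) = 0 := by
  rw [h.opP_T, h.dc, h.dc, hx, map_zero]

/-- Key identity: `S*² P S* = S*³ P`. -/
lemma key_adj (x : H) : adjoint S (adjoint S (opP S T (adjoint S x)))
    = adjoint S (adjoint S (adjoint S (opP S T x))) := by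
  rw [opP_apply, opP_apply]
  simp only [map_add, map_smul, h.dc, h.isoS]

/-- `Q = P* S² T`. -/
lemma opQ_eq (x y : H) : inner ℂ (opQ S T y) x = inner ℂ (S (S (T y))) (opP S T x) := by
  rw [opP_apply, opQ_apply]
  simp only [inner_add_left, inner_add_right, inner_smul_left, inner_smul_right]
  have e1 : inner ℂ (S (S (T y))) (S x) = inner ℂ (S (T y)) x := h.innerSS _ _
  have e2 : inner ℂ (S (S (T y))) (S (S x)) = inner ℂ (T y) x := by
    rw [h.innerSS, h.innerSS]
  have e3 : inner ℂ (S (S (T y))) (T x) = inner ℂ (S (S y)) x := by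
    rw [← h.comm, ← h.comm, h.innerTT]
  have e4 : inner ℂ (S (S (T y))) (S (S (T x))) = inner ℂ y x := by
    rw [h.innerSS, h.innerSS, h.innerTT]
  rw [e1, e2, e3, e4]
  simp only [map_ofNat]
  ring

omit [CompleteSpace H] h in
/-- Commutation with the inverse. -/
lemma inv_comm {A R B : H →L[ℂ] H} (h1 : ∀ x, A (R x) = x) (h2 : ∀ x, R (A x) = x)
    (hc : ∀ x, A (B x) = B (A x)) (x : H) : R (B x) = B (R x) := by
  have := hc (R x)
  rw [h1] at this
  rw [← this, h2]

lemma opP_opQ (x : H) : opP S T (opQ S T x) = opQ S T (opP S T x) := by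
  rw [opP_apply, opP_apply, opQ_apply, opQ_apply]
  simp only [map_add, map_smul, h.comm]
  module

end DC

/-- Real quadratic form. -/
noncomputable def qf (S : H →L[ℂ] H) (x y : H) : ℝ :=
  (inner ℂ x (S y) : ℂ).re + (inner ℂ (S x) y : ℂ).re

omit [CompleteSpace H] in
lemma re_inner_symm (x y : H) : (inner ℂ x y : ℂ).re = (inner ℂ y x : ℂ).re := by
  rw [← inner_conj_symm, Complex.conj_re]

omit [CompleteSpace H] in
lemma qf_symm (x y : H) : qf S x y = qf S y x := by
  unfold qf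
  rw [re_inner_symm x (S y), re_inner_symm (S x) y]
  ring

omit [CompleteSpace H] in
lemma qf_add_left (x y z : H) : qf S (x + y) z = qf S x z + qf S y z := by
  unfold qf
  rw [map_add, inner_add_left, inner_add_left, Complex.add_re, Complex.add_re]
  ring

omit [CompleteSpace H] in
lemma qf_add_right (x y z : H) : qf S x (y + z) = qf S x y + qf S x z := by
  rw [qf_symm, qf_add_left, qf_symm y, qf_symm z]

omit [CompleteSpace H] in
lemma qf_smul_left (c : ℝ) (x z : H) : qf S ((c : ℂ) • x) z = c * qf S x z := by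
  unfold qf
  rw [map_smul, inner_smul_left, inner_smul_left, Complex.conj_ofReal, Complex.re_ofReal_mul,
    Complex.re_ofReal_mul]
  ring

omit [CompleteSpace H] in
lemma qf_smul_right (c : ℝ) (x z : H) : qf S x ((c : ℂ) • z) = c * qf S x z := by
  rw [qf_symm, qf_smul_left, qf_symm]

namespace DC

variable (h : DC S T)
include h

lemma qf_TT (x y : H) : qf S (T x) (T y) = qf S x y := by
  unfold qf
  rw [← h.comm, ← h.comm, h.innerTT, h.innerTT]

/-- The form of `c + d T`. -/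
lemma qf_lin (c d : ℝ) (x : H) : qf S ((c : ℂ) • x + (d : ℂ) • T x) ((c : ℂ) • x + (d : ℂ) • T x)
    = (c ^ 2 + d ^ 2) * qf S x x + 2 * c * d * qf S x (T x) := by
  rw [qf_add_left, qf_add_right, qf_add_right, qf_smul_left, qf_smul_left, qf_smul_right,
    qf_smul_right, qf_smul_left, qf_smul_left, qf_smul_right, qf_smul_right, h.qf_TT,
    qf_symm (T x) x]
  ring

/-- Yule-Walker: the case of `P v` free of `z₁`. -/
lemma qf_walker {x : H} (hx : adjoint S (opP S T x) = 0) :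
    6 * qf S x x + 4 * ‖x‖ ^ 2 + qf S x (T x) = 0 := by
  have h0 : inner ℂ (opP S T x) (S x) = 0 := by
    rw [← adjoint_inner_left, hx, inner_zero_left]
  have h1 : (inner ℂ (opP S T x) (S x) : ℂ).re = 0 := by rw [h0]; rfl
  rw [opP_apply] at h1
  simp only [inner_add_left, inner_smul_left, map_ofNat, h.innerSS] at h1
  have e1 : (inner ℂ x x : ℂ).re = ‖x‖ ^ 2 := by
    rw [inner_self_eq_norm_sq_to_K]
    norm_cast
  have e8 : ∀ z : ℂ, ((8 : ℂ) * z).re = 8 * z.re := fun z => by simp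
  have e4 : ∀ z : ℂ, ((4 : ℂ) * z).re = 4 * z.re := fun z => by simp
  simp only [Complex.add_re, e8, e4, e1] at h1
  unfold qf
  have s1 := re_inner_symm (S x) x
  have s2 := re_inner_symm (S x) (T x)
  have s3 := re_inner_symm x (S (T x))
  rw [s1, s2, s3]
  rw [s1] at h1
  linarith

lemma qf_nonpos_E {v : H} (hv : adjoint S (opP S T v) = 0) : qf S v v ≤ 0 := by
  set t : ℝ := 6 + Real.sqrt 35 with ht
  have hs : Real.sqrt 35 ^ 2 = 35 := Real.sq_sqrt (by norm_num)
  have hs0 : 0 ≤ Real.sqrt 35 := Real.sqrt_nonneg _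
  have ht1 : t ^ 2 + 1 = 12 * t := by rw [ht]; nlinarith
  have ht6 : 6 ≤ t := by linarith
  have hc : ‖((t⁻¹ : ℝ) : ℂ)‖ < 1 := by
    rw [Complex.norm_real, Real.norm_of_nonneg (by positivity)]
    exact inv_lt_one_of_one_lt₀ (by linarith)
  obtain ⟨R, hR1, hR2⟩ := exists_inv (h.isUnit_one_add hc)
  set x : H := R v with hx
  have hcommS : ∀ y, (1 + ((t⁻¹ : ℝ) : ℂ) • T) (adjoint S (opP S T y))
      = adjoint S (opP S T ((1 + ((t⁻¹ : ℝ) : ℂ) • T) y)) := by
    intro y
    change adjoint S (opP S T y) + ((t⁻¹ : ℝ) : ℂ) • T (adjoint S (opP S T y))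
      = adjoint S (opP S T (y + ((t⁻¹ : ℝ) : ℂ) • T y))
    rw [map_add, map_add, map_smul, map_smul, h.opP_T, h.dc]
  have hxE : adjoint S (opP S T x) = 0 := by
    have h1 := hcommS x
    rw [hx, hR1, hv] at h1
    have h2 := congrArg R h1
    rwa [hR2, map_zero] at h2
  have hw := h.qf_walker hxE
  have hv' : v = ((1 : ℝ) : ℂ) • x + ((t⁻¹ : ℝ) : ℂ) • T x := by
    rw [Complex.ofReal_one, one_smul]
    exact (hR1 v).symm
  rw [hv', h.qf_lin]
  have htpos : 0 < t := by linarith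
  have e : (1 ^ 2 + t⁻¹ ^ 2) * qf S x x + 2 * 1 * t⁻¹ * qf S x (T x)
      = t⁻¹ * (12 * qf S x x + 2 * qf S x (T x)) := by
    have h3 : (1 : ℝ) ^ 2 + t⁻¹ ^ 2 = 12 * t⁻¹ := by
      field_simp
      linarith
    rw [h3]
    ring
  rw [e]
  have h4 : 12 * qf S x x + 2 * qf S x (T x) = -(8 * ‖x‖ ^ 2) := by linarith
  rw [h4]
  have : 0 ≤ t⁻¹ * (8 * ‖x‖ ^ 2) := by positivity
  linarith

/-- The range of `θ = P⁻¹ Q` is orthogonal to `N₂`. -/
lemma theta_ortho {R : H →L[ℂ] H} (h1 : ∀ x, opP S T (R x) = x) (h2 : ∀ x, R (opP S T x) = x)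
    {g : H} (hg : adjoint S (adjoint S (opP S T g)) = 0) (y : H) :
    inner ℂ (R (opQ S T y)) g = 0 := by
  rw [inv_comm h1 h2 (h.opP_opQ), h.opQ_eq, ← adjoint_inner_right, ← adjoint_inner_right, hg,
    inner_zero_right]

/-- The null vectors of the form. -/
lemma qf_null {f g a : H} (ha : adjoint S a = 0)
    (hf : opP S T f = (8 : ℂ) • T a + T (T a) + S ((8 : ℂ) • T a + a))
    (hg : adjoint S (adjoint S (opP S T g)) = 0) : qf S f g = 0 := by
  obtain ⟨R, h1, h2⟩ := exists_inv h.isUnit_opP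
  have hkey : f + S (S f) = T a + S (R (opQ S T a)) := by
    have hinj : opP S T (f + S (S f)) = opP S T (T a + S (R (opQ S T a))) := by
      have e1 : opP S T (f + S (S f)) = opP S T f + S (S (opP S T f)) := by
        rw [map_add, h.opP_S, h.opP_S]
      have e2 : opP S T (T a + S (R (opQ S T a))) = T (opP S T a) + S (opQ S T a) := by
        rw [map_add, h.opP_S, h1, h.opP_T]
      rw [e1, e2, hf, opP_apply, opQ_apply]
      simp only [map_add, map_smul, h.comm]
      module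
    have := congrArg R hinj
    rwa [h2, h2] at this
  have h3 : inner ℂ (f + S (S f)) (S g) = 0 := by
    rw [hkey, inner_add_left, h.innerSS, h.theta_ortho h1 h2 hg, ← adjoint_inner_left, h.dc, ha,
      map_zero, inner_zero_left, add_zero]
  rw [inner_add_left, h.innerSS] at h3
  unfold qf
  rw [← Complex.add_re, h3]
  rfl

/-- Main inequality: the numerical range of the compression lies in `Re ≤ 0`. -/
theorem qf_nonpos {g : H} (hg : adjoint S (adjoint S (opP S T g)) = 0) : qf S g g ≤ 0 := by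
  obtain ⟨R, h1, h2⟩ := exists_inv h.isUnit_opP
  have hc : ‖(((1 / 8 : ℝ)) : ℂ)‖ < 1 := by
    rw [Complex.norm_real, Real.norm_of_nonneg (by positivity)]
    norm_num
  obtain ⟨V, hV1, hV2⟩ := exists_inv (h.isUnit_one_add hc)
  set x : H := V g with hx
  have hgx : g = ((1 : ℝ) : ℂ) • x + ((1 / 8 : ℝ) : ℂ) • T x := by
    rw [Complex.ofReal_one, one_smul]
    exact (hV1 g).symm
  have hcommS : ∀ y, (1 + ((1 / 8 : ℝ) : ℂ) • T) (adjoint S (adjoint S (opP S T y)))
      = adjoint S (adjoint S (opP S T ((1 + ((1 / 8 : ℝ) : ℂ) • T) y))) := by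
    intro y
    change adjoint S (adjoint S (opP S T y)) + ((1 / 8 : ℝ) : ℂ) • T (adjoint S (adjoint S
      (opP S T y))) = adjoint S (adjoint S (opP S T (y + ((1 / 8 : ℝ) : ℂ) • T y)))
    rw [map_add, map_add, map_add, map_smul, map_smul, map_smul, h.opP_T, h.dc, h.dc]
  have hx2 : adjoint S (adjoint S (opP S T x)) = 0 := by
    have h3 := hcommS x
    rw [hx, hV1, hg] at h3
    have h4 := congrArg V h3
    rwa [hV2, map_zero] at h4
  -- `D x = f + v`
  set b : H := adjoint S (opP S T x) with hb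
  set a : H := opP S T x - S b with ha
  have hbE : adjoint S b = 0 := hx2
  have haE : adjoint S a = 0 := by
    rw [ha, map_sub, h.isoS, ← hb, sub_self]
  have hPx : opP S T x = a + S b := by rw [ha, sub_add_cancel]
  set f : H := R ((8 : ℂ) • T b + T (T b) + S ((8 : ℂ) • T b + b)) with hf
  set v : H := R ((8 : ℂ) • T a + a - ((8 : ℂ) • T b + T (T b))) with hv
  have hPf : opP S T f = (8 : ℂ) • T b + T (T b) + S ((8 : ℂ) • T b + b) := h1 _
  have hPv : opP S T v = (8 : ℂ) • T a + a - ((8 : ℂ) • T b + T (T b)) := h1 _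
  have hDx : ((1 : ℝ) : ℂ) • x + ((8 : ℝ) : ℂ) • T x = f + v := by
    have h3 : opP S T (((1 : ℝ) : ℂ) • x + ((8 : ℝ) : ℂ) • T x) = opP S T (f + v) := by
      have e1 : opP S T (((1 : ℝ) : ℂ) • x + ((8 : ℝ) : ℂ) • T x)
          = ((1 : ℝ) : ℂ) • opP S T x + ((8 : ℝ) : ℂ) • T (opP S T x) := by
        rw [map_add, map_smul, map_smul, h.opP_T]
      have e2 : opP S T (f + v) = opP S T f + opP S T v := map_add _ _ _
      rw [e1, e2, hPx, hPf, hPv]
      simp only [map_add, map_smul, h.comm, Complex.ofReal_one, Complex.ofReal_ofNat]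
      module
    have := congrArg R h3
    rwa [h2, h2] at this
  have hvE : adjoint S (opP S T v) = 0 := by
    rw [hPv]
    simp only [map_add, map_sub, map_smul, h.dc, haE, hbE, map_zero, smul_zero, add_zero, sub_zero]
  have hv2 : adjoint S (adjoint S (opP S T v)) = 0 := by rw [hvE, map_zero]
  have hf2 : adjoint S (adjoint S (opP S T f)) = 0 := by
    rw [hPf]
    simp only [map_add, map_smul, h.dc, h.isoS, hbE, map_zero, smul_zero, add_zero]
  have h5 : qf S (f + v) (f + v) ≤ 0 := by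
    rw [qf_add_left, qf_add_right, qf_add_right, h.qf_null hbE hPf hf2, h.qf_null hbE hPf hv2,
      qf_symm v f, h.qf_null hbE hPf hv2]
    have := h.qf_nonpos_E hvE
    linarith
  rw [← hDx, h.qf_lin] at h5
  rw [hgx, h.qf_lin]
  nlinarith

end DC

end Pool.Agent.Bidisc
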