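import Mathlib

/-!
# Hardy space of the bidisc, rational inner functions, Agler decompositions
-/

open Filter Topology Metric

namespace Pool.Agent.Bidisc

/-- The Hardy space `H²(𝔻²)`: a function `f = ∑ a_{kl} z₁ᵏ z₂ˡ` is represented by its
square-summable family of Taylor coefficients. -/
abbrev H22 : Type := lp (fun _ : ℕ × ℕ => ℂ) 2

/-- Bounded operators on `H²(𝔻²)`. -/
abbrev Op22 : Type := H22 →L[ℂ] H22

/-- The value at `(z, w)` of the function with Taylor coefficients `f`. -/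
noncomputable def ev2 (f : H22) (z w : ℂ) : ℂ := ∑' n : ℕ × ℕ, f n * (z ^ n.1 * w ^ n.2)

/-- The coefficients of `z₁ f`. -/
def shiftL (a : ℕ × ℕ → ℂ) : ℕ × ℕ → ℂ
  | (0, _) => 0
  | (k + 1, l) => a (k, l)

/-- The coefficients of `z₂ f`. -/
def shiftR (a : ℕ × ℕ → ℂ) : ℕ × ℕ → ℂ
  | (_, 0) => 0
  | (k, l + 1) => a (k, l)

lemma shiftL_eq_extend (a : ℕ × ℕ → ℂ) :
    shiftL a = Function.extend (fun n : ℕ × ℕ => (n.1 + 1, n.2)) a 0 := by
  have hinj : Function.Injective (fun n : ℕ × ℕ => (n.1 + 1, n.2)) := by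
    rintro ⟨a, b⟩ ⟨c, d⟩ h
    simp only [Prod.mk.injEq, add_left_inj] at h
    exact Prod.ext h.1 h.2
  funext n
  obtain ⟨k, l⟩ := n
  cases k with
  | zero =>
    rw [Function.extend_apply']
    · rfl
    · rintro ⟨⟨a, b⟩, h⟩
      simp at h
  | succ k => exact (hinj.extend_apply a 0 (k, l)).symm

lemma shiftR_eq_extend (a : ℕ × ℕ → ℂ) :
    shiftR a = Function.extend (fun n : ℕ × ℕ => (n.1, n.2 + 1)) a 0 := by
  have hinj : Function.Injective (fun n : ℕ × ℕ => (n.1, n.2 + 1)) := by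
    rintro ⟨a, b⟩ ⟨c, d⟩ h
    simp only [Prod.mk.injEq, add_left_inj] at h
    exact Prod.ext h.1 h.2
  funext n
  obtain ⟨k, l⟩ := n
  cases l with
  | zero =>
    rw [Function.extend_apply']
    · rfl
    · rintro ⟨⟨a, b⟩, h⟩
      simp at h
  | succ l => exact (hinj.extend_apply a 0 (k, l)).symm

lemma injL : Function.Injective (fun n : ℕ × ℕ => (n.1 + 1, n.2)) := by
  rintro ⟨a, b⟩ ⟨c, d⟩ h
  simp only [Prod.mk.injEq, add_left_inj] at h
  exact Prod.ext h.1 h.2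

lemma injR : Function.Injective (fun n : ℕ × ℕ => (n.1, n.2 + 1)) := by
  rintro ⟨a, b⟩ ⟨c, d⟩ h
  simp only [Prod.mk.injEq, add_left_inj] at h
  exact Prod.ext h.1 h.2

lemma H22.hasSum (f : H22) : HasSum (fun n => ‖f n‖ ^ 2) (‖f‖ ^ 2) := by
  have h := lp.hasSum_norm (p := 2) (by norm_num) f
  simpa using h

lemma H22.summable (f : H22) : Summable (fun n => ‖f n‖ ^ 2) := (H22.hasSum f).summable

lemma extend_norm {σ : ℕ × ℕ → ℕ × ℕ} (a : ℕ × ℕ → ℂ) :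
    (fun n => ‖Function.extend σ a 0 n‖ ^ 2) = Function.extend σ (fun n => ‖a n‖ ^ 2) 0 := by
  funext n
  by_cases h : ∃ m, σ m = n
  · unfold Function.extend
    rw [dif_pos h, dif_pos h]
  · rw [Function.extend_apply' _ _ _ h, Function.extend_apply' _ _ _ h]
    simp

lemma shiftL_hasSum (f : H22) : HasSum (fun n => ‖shiftL f n‖ ^ 2) (‖f‖ ^ 2) := by
  rw [shiftL_eq_extend, extend_norm, hasSum_extend_zero injL]
  exact H22.hasSum f

lemma shiftR_hasSum (f : H22) : HasSum (fun n => ‖shiftR f n‖ ^ 2) (‖f‖ ^ 2) := by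
  rw [shiftR_eq_extend, extend_norm, hasSum_extend_zero injR]
  exact H22.hasSum f

/-- Build an element of `H²(𝔻²)` from square-summable coefficients. -/
noncomputable def H22.mk (a : ℕ × ℕ → ℂ) (h : Summable (fun n => ‖a n‖ ^ 2)) : H22 :=
  ⟨a, memℓp_gen (by simpa using h)⟩

/-- `f ↦ z₁ f` as a function. -/
noncomputable def mulL (f : H22) : H22 := H22.mk (shiftL f) (shiftL_hasSum f).summable

/-- `f ↦ z₂ f` as a function. -/
noncomputable def mulR (f : H22) : H22 := H22.mk (shiftR f) (shiftR_hasSum f).summable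

lemma mulL_add (f g : H22) : mulL (f + g) = mulL f + mulL g := by
  apply lp.ext
  funext n
  obtain ⟨k, l⟩ := n
  change shiftL (f + g : H22) (k, l) = shiftL f (k, l) + shiftL g (k, l)
  cases k <;> simp [shiftL]

lemma mulL_smul (c : ℂ) (f : H22) : mulL (c • f) = c • mulL f := by
  apply lp.ext
  funext n
  obtain ⟨k, l⟩ := n
  change shiftL (c • f : H22) (k, l) = c * shiftL f (k, l)
  cases k <;> simp [shiftL]

lemma mulR_add (f g : H22) : mulR (f + g) = mulR f + mulR g := by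
  apply lp.ext
  funext n
  obtain ⟨k, l⟩ := n
  change shiftR (f + g : H22) (k, l) = shiftR f (k, l) + shiftR g (k, l)
  cases l <;> simp [shiftR]

lemma mulR_smul (c : ℂ) (f : H22) : mulR (c • f) = c • mulR f := by
  apply lp.ext
  funext n
  obtain ⟨k, l⟩ := n
  change shiftR (c • f : H22) (k, l) = c * shiftR f (k, l)
  cases l <;> simp [shiftR]

lemma norm_mulL (f : H22) : ‖mulL f‖ = ‖f‖ := by
  rw [← sq_eq_sq₀ (norm_nonneg _) (norm_nonneg _)]
  exact (H22.hasSum (mulL f)).unique (shiftL_hasSum f)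

lemma norm_mulR (f : H22) : ‖mulR f‖ = ‖f‖ := by
  rw [← sq_eq_sq₀ (norm_nonneg _) (norm_nonneg _)]
  exact (H22.hasSum (mulR f)).unique (shiftR_hasSum f)

lemma norm_mulL_le (f : H22) : ‖mulL f‖ ≤ 1 * ‖f‖ := by rw [norm_mulL, one_mul]

lemma norm_mulR_le (f : H22) : ‖mulR f‖ ≤ 1 * ‖f‖ := by rw [norm_mulR, one_mul]

/-- `f ↦ z₁ f` as a linear map. -/
noncomputable def linL : H22 →ₗ[ℂ] H22 where
  toFun := mulL
  map_add' := mulL_add
  map_smul' := mulL_smul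

/-- `f ↦ z₂ f` as a linear map. -/
noncomputable def linR : H22 →ₗ[ℂ] H22 where
  toFun := mulR
  map_add' := mulR_add
  map_smul' := mulR_smul

/-- The operator `S_{z₁}` of multiplication by `z₁` on `H²(𝔻²)`. -/
noncomputable def M1 : Op22 := linL.mkContinuous 1 norm_mulL_le

/-- The operator `S_{z₂}` of multiplication by `z₂` on `H²(𝔻²)`. -/
noncomputable def M2 : Op22 := linR.mkContinuous 1 norm_mulR_le

/-- `θ` is a rational inner function on the bidisc: it is the quotient of two polynomials,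
holomorphic on `𝔻²`, and its radial boundary values have modulus one almost everywhere. -/
structure IsRIF (θ : ℂ → ℂ → ℂ) : Prop where
  rational : ∃ p q : MvPolynomial (Fin 2) ℂ, p ≠ 0 ∧ ∀ z w : ℂ, ‖z‖ < 1 → ‖w‖ < 1 →
    MvPolynomial.eval ![z, w] p * θ z w = MvPolynomial.eval ![z, w] q
  holo : DifferentiableOn ℂ (fun x : ℂ × ℂ => θ x.1 x.2) (ball (0 : ℂ) 1 ×ˢ ball (0 : ℂ) 1)
  inner : ∀ᵐ t : ℝ × ℝ, ∃ L : ℂ, ‖L‖ = 1 ∧
    Tendsto (fun r : ℝ => θ (r * Complex.exp (t.1 * Complex.I)) (r * Complex.exp (t.2 * Complex.I)))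
      (𝓝[<] 1) (𝓝 L)

/-- `B` is a finite Blaschke product (on the open disc). -/
def IsBlaschke (B : ℂ → ℂ) : Prop :=
  ∃ (c : ℂ) (n : ℕ) (a : Fin n → ℂ), ‖c‖ = 1 ∧ (∀ j, ‖a j‖ < 1) ∧
    ∀ z : ℂ, ‖z‖ < 1 → B z = c * ∏ j, (z - a j) / (1 - starRingEnd ℂ (a j) * z)

/-- `θ(z₁, z₂) = B₁(z₁) B₂(z₂)` for finite Blaschke products `B₁`, `B₂`. -/
def IsSplit (θ : ℂ → ℂ → ℂ) : Prop :=
  ∃ B₁ B₂ : ℂ → ℂ, IsBlaschke B₁ ∧ IsBlaschke B₂ ∧
    ∀ z w : ℂ, ‖z‖ < 1 → ‖w‖ < 1 → θ z w = B₁ z * B₂ w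

/-- The set `θ H²(𝔻²)`. -/
def thetaH2 (θ : ℂ → ℂ → ℂ) : Set H22 :=
  {g | ∃ h : H22, ∀ z w : ℂ, ‖z‖ < 1 → ‖w‖ < 1 → ev2 g z w = θ z w * ev2 h z w}

/-- Subspaces of `H²(𝔻²)`. -/
abbrev Sub22 : Type := Submodule ℂ H22

/-- The model space `K_θ = H²(𝔻²) ⊖ θ H²(𝔻²)`. -/
noncomputable def modelSpace (θ : ℂ → ℂ → ℂ) : Sub22 := (Submodule.span ℂ (thetaH2 θ))ᗮ

/-- The subspace `N` is closed. -/
def IsClosedSub (N : Sub22) : Prop := IsClosed (N : Set H22)

/-- `N₁` and `N₂` are orthogonal. -/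
def IsOrth (N₁ N₂ : Sub22) : Prop := N₁ ≤ N₂ᗮ

/-- `K = N₁ + N₂`. -/
def IsSum (N₁ N₂ K : Sub22) : Prop := N₁ ⊔ N₂ = K

/-- `A N ⊆ N`. -/
def IsInvariant (A : Op22) (N : Sub22) : Prop := ∀ f ∈ N, A f ∈ N

/-- `K_θ = N₁ ⊕ N₂` is an Agler decomposition: `N₁`, `N₂` are closed and orthogonal, they span
`K_θ`, and `z_j N_j ⊆ N_j` for `j = 1, 2`. -/
structure IsAgler (θ : ℂ → ℂ → ℂ) (N₁ N₂ : Sub22) : Prop where
  closed₁ : IsClosedSub N₁
  closed₂ : IsClosedSub N₂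
  ortho : IsOrth N₁ N₂
  sum : IsSum N₁ N₂ (modelSpace θ)
  inv₁ : IsInvariant M1 N₁
  inv₂ : IsInvariant M2 N₂

/-- The orthogonal projection `P_N` onto a closed subspace. -/
noncomputable def proj (N : Sub22) [N.HasOrthogonalProjection] : Op22 := N.starProjection

/-- `⟨x, y⟩`, linear in the first variable. -/
noncomputable def ip (x y : H22) : ℂ := inner ℂ y x

/-- The numerical range of the compression `P_N A|_N` of `A` to a closed subspace `N`:
the set of all `⟨P_N A x, x⟩` with `x ∈ N`, `‖x‖ = 1`. -/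
def compressionRange (N : Sub22) [N.HasOrthogonalProjection] (A : Op22) : Set ℂ :=
  {c | ∃ x ∈ N, ‖x‖ = 1 ∧ ip (proj N (A x)) x = c}

/-- The rational inner function
`θ(z, w) = (1 + z² + 4 w (1 + z + 2 z²)) / (8 + 4 z + 4 z² + w (1 + z²))`. -/
noncomputable def theta (z w : ℂ) : ℂ :=
  (1 + z ^ 2 + 4 * w * (1 + z + 2 * z ^ 2)) / (8 + 4 * z + 4 * z ^ 2 + w * (1 + z ^ 2))

end Pool.Agent.Bidisc
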