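import Pool.Agent.Bidisc.Defs
import Pool.Agent.Bidisc.Core
import Pool.Agent.CompToeplitz.Hardy

/-!
# Evaluation on `H²(𝔻²)` and the shifts
-/

open Filter Topology Metric ContinuousLinearMap

namespace Pool.Agent.Bidisc

lemma M1_apply (f : H22) (k l : ℕ) : M1 f (k + 1, l) = f (k, l) := rfl
lemma M1_apply_zero (f : H22) (l : ℕ) : M1 f (0, l) = 0 := rfl
lemma M2_apply (f : H22) (k l : ℕ) : M2 f (k, l + 1) = f (k, l) := rfl
lemma M2_apply_zero (f : H22) (k : ℕ) : M2 f (k, 0) = 0 := rfl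

/-- Basis vectors. -/
noncomputable def bas (n : ℕ × ℕ) : H22 := lp.single 2 n (1 : ℂ)

lemma bas_self (n : ℕ × ℕ) : bas n n = 1 := lp.single_apply_self _ _ _

lemma bas_ne {n m : ℕ × ℕ} (h : m ≠ n) : bas n m = 0 := lp.single_apply_ne _ _ _ h

lemma inner_bas (n : ℕ × ℕ) (f : H22) : inner ℂ (bas n) f = f n := by
  unfold bas
  rw [lp.inner_single_left]
  simp

lemma M1_bas (k l : ℕ) : M1 (bas (k, l)) = bas (k + 1, l) := by
  apply lp.ext
  funext n
  obtain ⟨a, b⟩ := n
  cases a with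
  | zero => rw [M1_apply_zero, bas_ne (by simp)]
  | succ a =>
    rw [M1_apply]
    by_cases h : (a, b) = (k, l)
    · rw [Prod.mk.injEq] at h
      rw [h.1, h.2, bas_self, bas_self]
    · rw [bas_ne h, bas_ne]
      simpa using h

lemma M2_bas (k l : ℕ) : M2 (bas (k, l)) = bas (k, l + 1) := by
  apply lp.ext
  funext n
  obtain ⟨a, b⟩ := n
  cases b with
  | zero => rw [M2_apply_zero, bas_ne (by simp)]
  | succ b =>
    rw [M2_apply]
    by_cases h : (a, b) = (k, l)
    · rw [Prod.mk.injEq] at h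
      rw [h.1, h.2, bas_self, bas_self]
    · rw [bas_ne h, bas_ne]
      simpa using h

lemma adjM1_apply (f : H22) (k l : ℕ) : adjoint M1 f (k, l) = f (k + 1, l) := by
  rw [← inner_bas, adjoint_inner_right, M1_bas, inner_bas]

lemma adjM2_apply (f : H22) (k l : ℕ) : adjoint M2 f (k, l) = f (k, l + 1) := by
  rw [← inner_bas, adjoint_inner_right, M2_bas, inner_bas]

/-- The shifts are doubly commuting isometries. -/
lemma dc : DC M1 M2 where
  comm x := by
    apply lp.ext
    funext n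
    obtain ⟨k, l⟩ := n
    cases k <;> cases l <;> rfl
  isoS x := by
    apply lp.ext
    funext n
    obtain ⟨k, l⟩ := n
    rw [adjM1_apply, M1_apply]
  isoT x := by
    apply lp.ext
    funext n
    obtain ⟨k, l⟩ := n
    rw [adjM2_apply, M2_apply]
  dc x := by
    apply lp.ext
    funext n
    obtain ⟨k, l⟩ := n
    rw [adjM1_apply]
    cases l with
    | zero => rw [M2_apply_zero, M2_apply_zero]
    | succ l => rw [M2_apply, M2_apply, adjM1_apply]

lemma coeff_le (f : H22) (n : ℕ × ℕ) : ‖f n‖ ≤ ‖f‖ := lp.norm_apply_le_norm (by norm_num) f n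

lemma summable_ev2_norm (f : H22) {z w : ℂ} (hz : ‖z‖ < 1) (hw : ‖w‖ < 1) :
    Summable (fun n : ℕ × ℕ => ‖f n * (z ^ n.1 * w ^ n.2)‖) := by
  have h1 : Summable (fun n : ℕ × ℕ => ‖z‖ ^ n.1 * ‖w‖ ^ n.2) :=
    (summable_geometric_of_lt_one (norm_nonneg _) hz).mul_of_nonneg
      (summable_geometric_of_lt_one (norm_nonneg _) hw) (fun _ => by positivity)
      (fun _ => by positivity)
  apply Summable.of_nonneg_of_le (fun _ => norm_nonneg _) (fun n => ?_) (h1.mul_left ‖f‖)
  rw [norm_mul, norm_mul, norm_pow, norm_pow]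
  have := coeff_le f n
  gcongr

lemma summable_ev2 (f : H22) {z w : ℂ} (hz : ‖z‖ < 1) (hw : ‖w‖ < 1) :
    Summable (fun n : ℕ × ℕ => f n * (z ^ n.1 * w ^ n.2)) :=
  (summable_ev2_norm f hz hw).of_norm

lemma ev2_add (f g : H22) {z w : ℂ} (hz : ‖z‖ < 1) (hw : ‖w‖ < 1) :
    ev2 (f + g) z w = ev2 f z w + ev2 g z w := by
  unfold ev2
  rw [← (summable_ev2 f hz hw).tsum_add (summable_ev2 g hz hw)]
  apply tsum_congr
  intro n
  rw [lp.coeFn_add, Pi.add_apply, add_mul]

lemma ev2_smul (c : ℂ) (f : H22) (z w : ℂ) : ev2 (c • f) z w = c * ev2 f z w := by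
  unfold ev2
  rw [← tsum_mul_left]
  apply tsum_congr
  intro n
  rw [lp.coeFn_smul, Pi.smul_apply, smul_eq_mul, mul_assoc]

lemma ev2_M1 (f : H22) (z w : ℂ) : ev2 (M1 f) z w = z * ev2 f z w := by
  unfold ev2
  have h1 : ∑' n : ℕ × ℕ, M1 f n * (z ^ n.1 * w ^ n.2)
      = ∑' n : ℕ × ℕ, M1 f (n.1 + 1, n.2) * (z ^ (n.1 + 1) * w ^ n.2) := by
    rw [← injL.tsum_eq (f := fun n : ℕ × ℕ => M1 f n * (z ^ n.1 * w ^ n.2))]
    intro n hn
    obtain ⟨a, b⟩ := n
    cases a with
    | zero =>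
      exfalso
      apply hn
      change M1 f (0, b) * _ = 0
      rw [M1_apply_zero, zero_mul]
    | succ a => exact ⟨(a, b), rfl⟩
  rw [h1, ← tsum_mul_left]
  apply tsum_congr
  rintro ⟨a, b⟩
  rw [M1_apply]
  simp only
  ring

lemma ev2_M2 (f : H22) (z w : ℂ) : ev2 (M2 f) z w = w * ev2 f z w := by
  unfold ev2
  have h1 : ∑' n : ℕ × ℕ, M2 f n * (z ^ n.1 * w ^ n.2)
      = ∑' n : ℕ × ℕ, M2 f (n.1, n.2 + 1) * (z ^ n.1 * w ^ (n.2 + 1)) := by
    rw [← injR.tsum_eq (f := fun n : ℕ × ℕ => M2 f n * (z ^ n.1 * w ^ n.2))]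
    intro n hn
    obtain ⟨a, b⟩ := n
    cases b with
    | zero =>
      exfalso
      apply hn
      change M2 f (a, 0) * _ = 0
      rw [M2_apply_zero, zero_mul]
    | succ b => exact ⟨(a, b), rfl⟩
  rw [h1, ← tsum_mul_left]
  apply tsum_congr
  rintro ⟨a, b⟩
  rw [M2_apply]
  simp only
  ring

/-- Functions of `H²(𝔻²)` are determined by their values. -/
lemma ev2_injective {f g : H22} (h : ∀ z w : ℂ, ‖z‖ < 1 → ‖w‖ < 1 → ev2 f z w = ev2 g z w) :
    f = g := by
  have hsumm := H22.summable (f - g)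
  -- rows
  have hrow : ∀ k : ℕ, Summable (fun l : ℕ => ‖(f - g) (k, l)‖ ^ 2) := fun k =>
    hsumm.comp_injective (i := fun l : ℕ => (k, l)) (fun a b hab => (Prod.mk.injEq _ _ _ _ ▸ hab).2)
  set row : ℕ → Pool.Agent.CompToeplitz.H2 := fun k =>
    Pool.Agent.CompToeplitz.H2.mk (fun l => (f - g) (k, l)) (hrow k) with hrowdef
  have hzero : ∀ k, row k = 0 := by
    intro k
    apply Pool.Agent.CompToeplitz.ev_injective
    intro w hw
    rw [mem_ball_zero_iff] at hw
    -- column sums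
    have hc : Summable (fun k : ℕ => ‖Pool.Agent.CompToeplitz.ev (row k) w‖ ^ 2) := by
      have h1 : Summable (fun k : ℕ => ∑' l, ‖(f - g) (k, l)‖ ^ 2) :=
        hsumm.prod
      apply Summable.of_nonneg_of_le (fun _ => by positivity) (fun k => ?_)
        (h1.mul_right ((1 - ‖w‖)⁻¹ ^ 2))
      have h2 := Pool.Agent.CompToeplitz.norm_ev_le (row k) hw
      have h3 : ‖row k‖ ^ 2 = ∑' l, ‖(f - g) (k, l)‖ ^ 2 := by
        rw [Pool.Agent.CompToeplitz.H2.norm_sq]
        rfl
      rw [← h3, ← mul_pow]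
      gcongr
    have hc0 : Pool.Agent.CompToeplitz.H2.mk
        (fun k => Pool.Agent.CompToeplitz.ev (row k) w) hc = 0 := by
      apply Pool.Agent.CompToeplitz.ev_injective
      intro z hz
      rw [mem_ball_zero_iff] at hz
      have h4 : Pool.Agent.CompToeplitz.ev (Pool.Agent.CompToeplitz.H2.mk
        (fun k => Pool.Agent.CompToeplitz.ev (row k) w) hc) z = ev2 (f - g) z w := by
        unfold ev2
        rw [(summable_ev2 (f - g) hz hw).tsum_prod]
        unfold Pool.Agent.CompToeplitz.ev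
        apply tsum_congr
        intro k
        change (∑' l : ℕ, (f - g) (k, l) * w ^ l) * z ^ k = _
        rw [← tsum_mul_right]
        apply tsum_congr
        intro l
        change (f - g) (k, l) * w ^ l * z ^ k = (f - g) (k, l) * (z ^ k * w ^ l)
        ring
      rw [h4]
      have h5 : ev2 (f - g) z w = 0 := by
        have h6 : f - g = f + (-1 : ℂ) • g := by module
        rw [h6, ev2_add _ _ hz hw, ev2_smul, h z w hz hw]
        ring
      rw [h5]
      unfold Pool.Agent.CompToeplitz.ev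
      simp
    have h7 := congrArg (fun F : Pool.Agent.CompToeplitz.H2 => F k) hc0
    have h8 : Pool.Agent.CompToeplitz.ev (row k) w = 0 := h7
    rw [h8]
    unfold Pool.Agent.CompToeplitz.ev
    simp
  rw [← sub_eq_zero]
  apply lp.ext
  funext n
  obtain ⟨k, l⟩ := n
  have h1 := congrArg (fun F : Pool.Agent.CompToeplitz.H2 => F l) (hzero k)
  exact h1

end Pool.Agent.Bidisc
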