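import Pool.Agent.Bidisc.Ev

/-!
# The rational inner function of degree `(2,1)` and its Agler decomposition
-/

open Filter Topology Metric ContinuousLinearMap

namespace Pool.Agent.Bidisc

lemma den_ne {z w : ℂ} (hz : ‖z‖ ≤ 1) (hw : ‖w‖ ≤ 1) :
    8 + 4 * z + 4 * z ^ 2 + w * (1 + z ^ 2) ≠ 0 := by
  intro h0
  have h1 : (16 : ℂ) = -(4 * z ^ 2) + 4 * z ^ 3 - w * 2 + w * z - w * (2 * z ^ 2) + w * z ^ 3 := by
    have : (8 + 4 * z + 4 * z ^ 2 + w * (1 + z ^ 2)) * (2 - z) = 0 := by rw [h0, zero_mul]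
    linear_combination this
  have h2 : ‖(16 : ℂ)‖ ≤ 14 := by
    rw [h1]
    have hz2 : ‖z‖ ^ 2 ≤ 1 := pow_le_one₀ (norm_nonneg _) hz
    have hz3 : ‖z‖ ^ 3 ≤ 1 := pow_le_one₀ (norm_nonneg _) hz
    have a1 : ‖-(4 * z ^ 2)‖ ≤ 4 := by
      rw [norm_neg, norm_mul, norm_pow]; norm_num; linarith
    have a2 : ‖4 * z ^ 3‖ ≤ 4 := by
      rw [norm_mul, norm_pow]; norm_num; linarith
    have a3 : ‖w * 2‖ ≤ 2 := by
      rw [norm_mul]; norm_num; linarith
    have a4 : ‖w * z‖ ≤ 1 := by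
      rw [norm_mul]; nlinarith [norm_nonneg z, norm_nonneg w]
    have a5 : ‖w * (2 * z ^ 2)‖ ≤ 2 := by
      rw [norm_mul, norm_mul, norm_pow]; norm_num
      nlinarith [norm_nonneg w, sq_nonneg ‖z‖]
    have a6 : ‖w * z ^ 3‖ ≤ 1 := by
      rw [norm_mul, norm_pow]
      nlinarith [norm_nonneg w, pow_nonneg (norm_nonneg z) 3]
    have c1 := norm_add_le (-(4 * z ^ 2)) (4 * z ^ 3)
    have c2 := norm_sub_le (-(4 * z ^ 2) + 4 * z ^ 3) (w * 2)
    have c3 := norm_add_le (-(4 * z ^ 2) + 4 * z ^ 3 - w * 2) (w * z)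
    have c4 := norm_sub_le (-(4 * z ^ 2) + 4 * z ^ 3 - w * 2 + w * z) (w * (2 * z ^ 2))
    have c5 := norm_add_le (-(4 * z ^ 2) + 4 * z ^ 3 - w * 2 + w * z - w * (2 * z ^ 2)) (w * z ^ 3)
    linarith
  have h3 : ‖(16 : ℂ)‖ = 16 := by simp
  linarith

lemma norm_theta {z w : ℂ} (hz : ‖z‖ = 1) (hw : ‖w‖ = 1) : ‖theta z w‖ = 1 := by
  have h1 : z * starRingEnd ℂ z = 1 := by
    rw [Complex.mul_conj, Complex.normSq_eq_norm_sq, hz]; simp
  have h2 : w * starRingEnd ℂ w = 1 := by
    rw [Complex.mul_conj, Complex.normSq_eq_norm_sq, hw]; simp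
  have h3 : 1 + z ^ 2 + 4 * w * (1 + z + 2 * z ^ 2)
      = z ^ 2 * w * starRingEnd ℂ (8 + 4 * z + 4 * z ^ 2 + w * (1 + z ^ 2)) := by
    simp only [map_add, map_mul, map_pow, map_ofNat, map_one]
    set a := starRingEnd ℂ z
    set b := starRingEnd ℂ w
    have e1 : z ^ 2 * w * (8 + 4 * a + 4 * a ^ 2 + b * (1 + a ^ 2))
      = 8 * z ^ 2 * w + 4 * z * w * (z * a) + 4 * w * (z * a) ^ 2
        + (w * b) * (z ^ 2 + (z * a) ^ 2) := by ring
    rw [e1, h1, h2]
    ring
  unfold theta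
  rw [norm_div, h3, norm_mul, norm_mul, norm_pow, hz, hw, RCLike.norm_conj]
  have h4 : ‖8 + 4 * z + 4 * z ^ 2 + w * (1 + z ^ 2)‖ ≠ 0 :=
    norm_ne_zero_iff.2 (den_ne hz.le hw.le)
  field_simp

lemma isRIF_theta : IsRIF theta where
  rational := by
    refine ⟨MvPolynomial.C 8 + MvPolynomial.C 4 * MvPolynomial.X 0 + MvPolynomial.C 4 *
      MvPolynomial.X 0 ^ 2 + MvPolynomial.X 1 * (1 + MvPolynomial.X 0 ^ 2),
      1 + MvPolynomial.X 0 ^ 2 + MvPolynomial.C 4 * MvPolynomial.X 1 * (1 + MvPolynomial.X 0 +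
      MvPolynomial.C 2 * MvPolynomial.X 0 ^ 2), ?_, ?_⟩
    · intro h0
      have := congrArg (MvPolynomial.eval ![(0 : ℂ), 0]) h0
      simp at this
    · intro z w hz hw
      simp only [map_add, map_mul, map_pow, map_one, MvPolynomial.eval_C, MvPolynomial.eval_X,
        Matrix.cons_val_zero, Matrix.cons_val_one]
      unfold theta
      rw [mul_div_cancel₀ _ (den_ne hz.le hw.le)]
  holo := by
    unfold theta
    simp only [div_eq_mul_inv]
    apply DifferentiableOn.mul (by fun_prop)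
    apply DifferentiableOn.inv (by fun_prop)
    rintro ⟨z, w⟩ ⟨hz, hw⟩
    rw [mem_ball_zero_iff] at hz hw
    exact den_ne hz.le hw.le
  inner := by
    refine Filter.Eventually.of_forall (fun t => ?_)
    have hn1 : ‖Complex.exp (t.1 * Complex.I)‖ = 1 := Complex.norm_exp_ofReal_mul_I _
    have hn2 : ‖Complex.exp (t.2 * Complex.I)‖ = 1 := Complex.norm_exp_ofReal_mul_I _
    refine ⟨theta (Complex.exp (t.1 * Complex.I)) (Complex.exp (t.2 * Complex.I)),
      norm_theta hn1 hn2, ?_⟩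
    have hc : ContinuousAt (fun r : ℝ => theta (r * Complex.exp (t.1 * Complex.I))
        (r * Complex.exp (t.2 * Complex.I))) 1 := by
      unfold theta
      apply ContinuousAt.div
      · fun_prop
      · fun_prop
      · simp only [Complex.ofReal_one, one_mul]
        exact den_ne hn1.le hn2.le
    have h1 := hc.tendsto
    simp only [Complex.ofReal_one, one_mul] at h1
    exact h1.mono_left nhdsWithin_le_nhds

lemma not_isSplit_theta : ¬ IsSplit theta := by
  rintro ⟨B₁, B₂, -, -, h⟩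
  have hh : ‖(1 / 2 : ℂ)‖ < 1 := by norm_num
  have h0 : ‖(0 : ℂ)‖ < 1 := by norm_num
  have e1 := h (1 / 2) (1 / 2) hh hh
  have e2 := h 0 0 h0 h0
  have e3 := h (1 / 2) 0 hh h0
  have e4 := h 0 (1 / 2) h0 hh
  have e5 : theta (1 / 2) (1 / 2) * theta 0 0 = theta (1 / 2) 0 * theta 0 (1 / 2) := by
    rw [e1, e2, e3, e4]; ring
  unfold theta at e5
  norm_num at e5

lemma ev2_opP (f : H22) {z w : ℂ} (hz : ‖z‖ < 1) (hw : ‖w‖ < 1) :
    ev2 (opP M1 M2 f) z w = (8 + 4 * z + 4 * z ^ 2 + w * (1 + z ^ 2)) * ev2 f z w := by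
  rw [opP_apply]
  simp only [ev2_add _ _ hz hw, ev2_smul, ev2_M1, ev2_M2]
  ring

lemma ev2_opQ (f : H22) {z w : ℂ} (hz : ‖z‖ < 1) (hw : ‖w‖ < 1) :
    ev2 (opQ M1 M2 f) z w = (1 + z ^ 2 + 4 * w * (1 + z + 2 * z ^ 2)) * ev2 f z w := by
  rw [opQ_apply]
  simp only [ev2_add _ _ hz hw, ev2_smul, ev2_M1, ev2_M2]
  ring

/-- Description of `θ H²`. -/
lemma mem_thetaH2 {R : Op22} (h1 : ∀ x, opP M1 M2 (R x) = x) (h2 : ∀ x, R (opP M1 M2 x) = x)
    (g : H22) : g ∈ thetaH2 theta ↔ ∃ y, g = R (opQ M1 M2 y) := by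
  constructor
  · rintro ⟨y, hy⟩
    refine ⟨y, ?_⟩
    have h3 : opP M1 M2 g = opQ M1 M2 y := by
      apply ev2_injective
      intro z w hz hw
      rw [ev2_opP _ hz hw, ev2_opQ _ hz hw, hy z w hz hw]
      unfold theta
      have := den_ne hz.le hw.le
      field_simp
    rw [← h3, h2]
  · rintro ⟨y, rfl⟩
    refine ⟨y, fun z w hz hw => ?_⟩
    have h3 := ev2_opP (R (opQ M1 M2 y)) hz hw
    rw [h1, ev2_opQ _ hz hw] at h3
    unfold theta
    rw [div_mul_eq_mul_div, eq_div_iff (den_ne hz.le hw.le)]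
    linear_combination -h3

lemma mem_modelSpace {R : Op22} (h1 : ∀ x, opP M1 M2 (R x) = x)
    (h2 : ∀ x, R (opP M1 M2 x) = x) (x : H22) :
    x ∈ modelSpace theta ↔ ∀ y, inner ℂ (R (opQ M1 M2 y)) x = 0 := by
  unfold modelSpace
  rw [Submodule.mem_orthogonal]
  constructor
  · intro h y
    exact h _ (Submodule.subset_span ((mem_thetaH2 h1 h2 _).2 ⟨y, rfl⟩))
  · intro h u hu
    induction hu using Submodule.span_induction with
    | mem u hu =>
      obtain ⟨y, rfl⟩ := (mem_thetaH2 h1 h2 _).1 hu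
      exact h y
    | zero => exact inner_zero_left _
    | add u v _ _ hu hv => rw [inner_add_left, hu, hv, add_zero]
    | smul c u _ hu => rw [inner_smul_left, hu, mul_zero]

/-- The space `N₂ = {g : p g ∈ H²(z₂) + z₁ H²(z₂)}`. -/
noncomputable def N2 : Submodule ℂ H22 :=
  LinearMap.ker ((adjoint M1 * adjoint M1 * opP M1 M2 : Op22) : H22 →ₗ[ℂ] H22)

lemma mem_N2 (x : H22) : x ∈ N2 ↔ adjoint M1 (adjoint M1 (opP M1 M2 x)) = 0 := Iff.rfl

lemma isClosed_N2 : IsClosed (N2 : Set H22) :=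
  ContinuousLinearMap.isClosed_ker (adjoint M1 * adjoint M1 * opP M1 M2 : Op22)

instance : CompleteSpace N2 := isClosed_N2.completeSpace_coe

/-- The space `N₁ = K_θ ⊖ N₂`. -/
noncomputable def N1 : Submodule ℂ H22 := N2ᗮ ⊓ modelSpace theta

lemma isAgler : IsAgler theta N1 N2 := by
  obtain ⟨R, h1, h2⟩ := DC.exists_inv dc.isUnit_opP
  have hN2le : N2 ≤ modelSpace theta := by
    intro x hx
    rw [mem_modelSpace h1 h2]
    intro y
    exact dc.theta_ortho h1 h2 ((mem_N2 x).1 hx) y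
  have hadj : ∀ x, x ∈ N2 → adjoint M1 x ∈ N2 := by
    intro x hx
    rw [mem_N2] at hx ⊢
    rw [dc.key_adj, hx, map_zero]
  refine ⟨?_, isClosed_N2, inf_le_left, ?_, ?_, ?_⟩
  · have : (N1 : Set H22) = (N2ᗮ : Set H22) ∩ (modelSpace theta : Set H22) := rfl
    change IsClosed (N1 : Set H22)
    rw [this]
    exact (Submodule.isClosed_orthogonal _).inter (Submodule.isClosed_orthogonal _)
  · change N2ᗮ ⊓ modelSpace theta ⊔ N2 = modelSpace theta
    rw [sup_comm]
    exact Submodule.sup_orthogonal_inf_of_hasOrthogonalProjection hN2le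
  · rintro x ⟨hx1, hx2⟩
    have hx2' := (mem_modelSpace h1 h2 x).1 hx2
    refine ⟨?_, ?_⟩
    · change M1 x ∈ N2ᗮ
      rw [Submodule.mem_orthogonal]
      intro u hu
      rw [← adjoint_inner_left]
      exact (Submodule.mem_orthogonal _ _).1 hx1 _ (hadj u hu)
    · change M1 x ∈ modelSpace theta
      rw [mem_modelSpace h1 h2]
      intro y
      -- decompose `y`
      set e : H22 := y - M1 (adjoint M1 y) with he
      have heE : adjoint M1 e = 0 := by
        rw [he, map_sub, dc.isoS, sub_self]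
      have hy : y = M1 (adjoint M1 y) + e := by rw [he]; abel
      have hRS : ∀ u, R (M1 u) = M1 (R u) := DC.inv_comm h1 h2 dc.opP_S
      have hsplit : adjoint M1 (R (opQ M1 M2 y))
          = R (opQ M1 M2 (adjoint M1 y)) + adjoint M1 (R (opQ M1 M2 e)) := by
        conv_lhs => rw [hy]
        rw [map_add, map_add, map_add, dc.opQ_S, hRS, dc.isoS]
      rw [← adjoint_inner_left, hsplit, inner_add_left, hx2', zero_add]
      apply (Submodule.mem_orthogonal _ _).1 hx1
      rw [mem_N2, dc.key_adj, h1, opQ_apply]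
      simp only [map_add, map_smul, dc.dc, dc.isoS, heE, map_zero, smul_zero, add_zero]
  · intro x hx
    rw [mem_N2] at hx ⊢
    exact dc.mem2_T hx

/-- If `N` is inside the maximal space and contains a null vector, then the numerical range of the
compression to `N` is not open. -/
theorem not_isOpen_of_null {N : Submodule ℂ H22} [N.HasOrthogonalProjection] (hN : N ≤ N2)
    {f : H22} (hf : f ∈ N) (hf0 : f ≠ 0) (hq : qf M1 f f = 0) :
    ¬ IsOpen (compressionRange N M1) := by
  intro hopen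
  have hre : (inner ℂ f (M1 f) : ℂ).re = 0 := by
    unfold qf at hq
    rw [re_inner_symm (M1 f) f] at hq
    linarith
  have hn : ‖f‖ ≠ 0 := norm_ne_zero_iff.2 hf0
  set g : H22 := ((‖f‖⁻¹ : ℝ) : ℂ) • f with hg
  have hgN : g ∈ N := N.smul_mem _ hf
  have hg1 : ‖g‖ = 1 := by
    rw [hg, norm_smul, Complex.norm_real, norm_inv, norm_norm, inv_mul_cancel₀ hn]
  have hgre : (inner ℂ g (M1 g) : ℂ).re = 0 := by
    rw [hg, map_smul, inner_smul_left, inner_smul_right, Complex.conj_ofReal,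
      Complex.re_ofReal_mul, Complex.re_ofReal_mul, hre, mul_zero, mul_zero]
  have hval : ∀ x ∈ N, ip (proj N (M1 x)) x = (inner ℂ x (M1 x) : ℂ) := by
    intro x hx
    change inner ℂ x (N.starProjection (M1 x)) = (inner ℂ x (M1 x) : ℂ)
    rw [← Submodule.inner_starProjection_left_eq_right, Submodule.starProjection_eq_self_iff.2 hx]
  have hmem : inner ℂ g (M1 g) ∈ compressionRange N M1 := ⟨g, hgN, hg1, hval g hgN⟩
  obtain ⟨ε, hε, hball⟩ := Metric.isOpen_iff.1 hopen _ hmem
  have h1 : inner ℂ g (M1 g) + ((ε / 2 : ℝ) : ℂ) ∈ compressionRange N M1 := by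
    apply hball
    rw [Metric.mem_ball, dist_eq_norm, add_sub_cancel_left, Complex.norm_real,
      Real.norm_of_nonneg (by positivity)]
    linarith
  obtain ⟨x, hx, hx1, hxv⟩ := h1
  rw [hval x hx] at hxv
  have h2 := dc.qf_nonpos ((mem_N2 x).1 (hN hx))
  unfold qf at h2
  rw [re_inner_symm (M1 x) x] at h2
  have h3 := congrArg Complex.re hxv
  rw [Complex.add_re, hgre, Complex.ofReal_re] at h3
  linarith

section decomp

variable {N₁ N₂ : Submodule ℂ H22} (h : IsAgler theta N₁ N₂)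
include h

omit h in
lemma agler_ortho_T {x : H22} (hx : x ∈ modelSpace theta) (y : H22) :
    inner ℂ (M2 y) (adjoint M1 (adjoint M1 (opP M1 M2 x))) = 0 := by
  obtain ⟨R, h1, h2⟩ := DC.exists_inv dc.isUnit_opP
  rw [adjoint_inner_right, adjoint_inner_right, ← dc.opQ_eq]
  have h3 := (mem_modelSpace h1 h2 x).1 hx (opP M1 M2 y)
  rwa [← dc.opP_opQ, h2] at h3

lemma agler_le2 : N₂ ≤ N2 := by
  intro x hx
  have h0 : M2 x ∈ modelSpace theta := by
    rw [← (h.sum : N₁ ⊔ N₂ = modelSpace theta)]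
    exact Submodule.mem_sup_right (h.inv₂ x hx)
  rw [mem_N2]
  have h1 := agler_ortho_T h0 (adjoint M1 (adjoint M1 (opP M1 M2 x)))
  rw [dc.opP_T, dc.dc, dc.dc, dc.innerTT] at h1
  exact inner_self_eq_zero.1 h1

lemma agler_le1 {x : H22} (hx : x ∈ N₁) : adjoint M2 (opP M1 M2 x) = 0 := by
  have h0 : M1 (M1 x) ∈ modelSpace theta := by
    rw [← (h.sum : N₁ ⊔ N₂ = modelSpace theta)]
    exact Submodule.mem_sup_left (h.inv₁ _ (h.inv₁ x hx))
  have h1 := agler_ortho_T h0 (adjoint M2 (opP M1 M2 x))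
  rw [dc.opP_S, dc.opP_S, dc.isoS, dc.isoS, ← adjoint_inner_right] at h1
  exact inner_self_eq_zero.1 h1

/-- The numerical range is not open, for every Agler decomposition. -/
theorem not_isOpen [N₂.HasOrthogonalProjection] : ¬ IsOpen (compressionRange N₂ M1) := by
  obtain ⟨R, h1, h2⟩ := DC.exists_inv dc.isUnit_opP
  -- the null vectors
  set a : Fin 3 → H22 := fun j => bas (0, (j : ℕ)) with ha
  have haE : ∀ j, adjoint M1 (a j) = 0 := by
    intro j
    apply lp.ext
    funext n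
    obtain ⟨k, l⟩ := n
    rw [adjM1_apply, ha]
    simp only
    rw [bas_ne (by simp)]
    rfl
  have hstep : ∀ b : H22, adjoint M1 b = 0 → ∃ u ∈ N₁, ∃ v ∈ N₂,
      opP M1 M2 (u + v) = (8 : ℂ) • M2 b + M2 (M2 b) + M1 ((8 : ℂ) • M2 b + b) ∧
      adjoint M1 (adjoint M1 (opP M1 M2 u)) = 0 := by
    intro b hb
    set f : H22 := R ((8 : ℂ) • M2 b + M2 (M2 b) + M1 ((8 : ℂ) • M2 b + b)) with hf
    have hPf : opP M1 M2 f = (8 : ℂ) • M2 b + M2 (M2 b) + M1 ((8 : ℂ) • M2 b + b) := h1 _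
    have hf2 : adjoint M1 (adjoint M1 (opP M1 M2 f)) = 0 := by
      rw [hPf]
      simp only [map_add, map_smul, dc.dc, dc.isoS, hb, map_zero, smul_zero, add_zero]
    have hfK : f ∈ modelSpace theta := by
      rw [mem_modelSpace h1 h2]
      intro y
      exact dc.theta_ortho h1 h2 hf2 y
    rw [← (h.sum : N₁ ⊔ N₂ = modelSpace theta)] at hfK
    obtain ⟨u, hu, v, hv, huv⟩ := Submodule.mem_sup.1 hfK
    refine ⟨u, hu, v, hv, by rw [huv, hPf], ?_⟩
    have hu' : u = f - v := by rw [← huv]; abel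
    have hv2 := (mem_N2 v).1 (agler_le2 h hv)
    rw [hu', map_sub, map_sub, map_sub, hf2, hv2, sub_zero]
  choose u hu v hv hPuv hu2 using fun j => hstep (a j) (haE j)
  have huT : ∀ j, adjoint M2 (opP M1 M2 (u j)) = 0 := fun j => agler_le1 h (hu j)
  -- linear dependence
  set L : (Fin 3 → ℂ) →ₗ[ℂ] (Fin 2 → ℂ) := 
    { toFun := fun c i => ∑ j, c j * opP M1 M2 (u j) ((i : ℕ), 0)
      map_add' := by
        intro c d
        funext i
        simp only [Pi.add_apply]
        rw [← Finset.sum_add_distrib]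
        apply Finset.sum_congr rfl
        intro j _
        ring
      map_smul' := by
        intro r c
        funext i
        simp only [Pi.smul_apply, smul_eq_mul, RingHom.id_apply]
        rw [Finset.mul_sum]
        apply Finset.sum_congr rfl
        intro j _
        ring } with hL
  have hker : LinearMap.ker L ≠ ⊥ := by
    apply LinearMap.ker_ne_bot_of_finrank_lt
    simp
  obtain ⟨c, hc, hc0⟩ := (Submodule.ne_bot_iff _).1 hker
  have hLc : ∀ i : Fin 2, ∑ j, c j * opP M1 M2 (u j) ((i : ℕ), 0) = 0 := by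
    intro i
    have := congrFun (LinearMap.mem_ker.1 hc) i
    exact this
  have hsumP : opP M1 M2 (∑ j, c j • u j) = 0 := by
    apply lp.ext
    funext n
    obtain ⟨k, l⟩ := n
    have e1 : opP M1 M2 (∑ j, c j • u j) = ∑ j, c j • opP M1 M2 (u j) := by
      rw [map_sum]
      apply Finset.sum_congr rfl
      intro j _
      rw [map_smul]
    have e2 : (∑ j, c j • opP M1 M2 (u j) : H22) (k, l)
        = ∑ j, c j * opP M1 M2 (u j) (k, l) := by
      rw [lp.coeFn_sum, Finset.sum_apply]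
      rfl
    rw [e1, e2]
    change _ = (0 : ℂ)
    cases l with
    | succ l =>
      apply Finset.sum_eq_zero
      intro j _
      have := congrArg (fun F : H22 => F (k, l)) (huT j)
      simp only at this
      rw [adjM2_apply] at this
      rw [this]
      exact mul_zero _
    | zero =>
      rcases k with _ | _ | k
      · exact hLc 0
      · exact hLc 1
      · apply Finset.sum_eq_zero
        intro j _
        have := congrArg (fun F : H22 => F (k, 0)) (hu2 j)
        simp only at this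
        rw [adjM1_apply, adjM1_apply] at this
        rw [this]
        exact mul_zero _
  have hsum0 : ∑ j, c j • u j = 0 := by
    have := congrArg R hsumP
    rwa [h2, map_zero] at this
  set f : H22 := ∑ j, c j • v j with hf
  have hfN : f ∈ N₂ := Submodule.sum_mem _ (fun j _ => N₂.smul_mem _ (hv j))
  set b : H22 := ∑ j, c j • a j with hb
  have hbE : adjoint M1 b = 0 := by
    rw [hb, map_sum]
    apply Finset.sum_eq_zero
    intro j _
    rw [map_smul, haE, smul_zero]
  have hPf : opP M1 M2 f = (8 : ℂ) • M2 b + M2 (M2 b) + M1 ((8 : ℂ) • M2 b + b) := by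
    have e1 : f = ∑ j, c j • (u j + v j) := by
      simp only [smul_add]
      rw [Finset.sum_add_distrib, hsum0, zero_add]
    have e2 : opP M1 M2 f = ∑ j, c j • opP M1 M2 (u j + v j) := by
      rw [e1, map_sum]
      apply Finset.sum_congr rfl
      intro j _
      rw [map_smul]
    rw [e2]
    simp only [hPuv]
    rw [hb]
    simp only [map_sum, map_add, map_smul, smul_add, Finset.sum_add_distrib, Finset.smul_sum]
    simp only [smul_comm (8 : ℂ)]
  have hf2 := (mem_N2 f).1 (agler_le2 h hfN)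
  have hq : qf M1 f f = 0 := dc.qf_null hbE hPf hf2
  have hf0 : f ≠ 0 := by
    intro h0
    rw [h0, map_zero] at hPf
    have h3 := congrArg (adjoint M1) hPf
    simp only [map_add, map_smul, dc.dc, dc.isoS, hbE, map_zero, smul_zero, zero_add] at h3
    -- `8 T b + b = 0`
    have h4 : (8 : ℂ) • M2 b = -b := by
      rw [eq_neg_iff_add_eq_zero]
      exact h3.symm
    have h5 := congrArg norm h4
    rw [norm_smul, dc.normT, norm_neg] at h5
    have e8 : ‖(8 : ℂ)‖ = 8 := by simp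
    rw [e8] at h5
    have h6 : ‖b‖ = 0 := by linarith
    have h7 : b = 0 := norm_eq_zero.1 h6
    apply hc0
    funext j
    have h8 := congrArg (fun F : H22 => F (0, (j : ℕ))) h7
    have e3 : b (0, (j : ℕ)) = c j := by
      rw [hb, lp.coeFn_sum, Finset.sum_apply, Finset.sum_eq_single j]
      · change c j * bas (0, (j : ℕ)) (0, (j : ℕ)) = c j
        rw [bas_self, mul_one]
      · intro i _ hij
        change c i * bas (0, (i : ℕ)) (0, (j : ℕ)) = 0
        rw [bas_ne, mul_zero]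
        intro hcon
        apply hij
        rw [Prod.mk.injEq] at hcon
        exact (Fin.ext hcon.2).symm
      · intro hj
        exact absurd (Finset.mem_univ j) hj
    change b (0, (j : ℕ)) = 0 at h8
    rw [← e3, h8]
    rfl
  exact not_isOpen_of_null (agler_le2 h) hfN hf0 hq

end decomp

end Pool.Agent.Bidisc
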